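import Pool.Agent.Lib.MP_de485e_gt.Global

/-! Pinching estimate for mean curvature flow of closed hypersurfaces of the unit sphere. -/

open Set
open scoped RealInnerProductSpace Manifold ContDiff
open Pool.Agent.Lib.MP_de485e_gt

namespace Pool.Agent.Variants.MP_de485e_gt.HyperPinch

theorem result (n : ℕ) (hn : 2 ≤ n) (P Q : Type) [NormedAddCommGroup P] [InnerProductSpace ℝ P]
    [FiniteDimensional ℝ P] [NormedAddCommGroup Q] [InnerProductSpace ℝ Q] [FiniteDimensional ℝ Q]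
    (hP : Module.finrank ℝ P = n) (hQ : Module.finrank ℝ Q = n + 2)
    (M : Type) [TopologicalSpace M] [T2Space M] [CompactSpace M] [ChartedSpace P M]
    [IsManifold 𝓘(ℝ, P) ∞ M] (T : EReal) (F : ℝ → M → Q)
    (h : IsSphereMCF P F {t | 0 ≤ t ∧ (t : EReal) < T}) :
    (∀ Z : ℝ, 0 ≤ Z → Z < 1 → Pinched P (F 0) Z →
      ∀ t : ℝ, 0 ≤ t → (t : EReal) < T → Pinched P (F t) (Z * Real.exp (-(2 * n * t)))) ∧
    (TauLt P (F 0) (4 / 3) →
      ∀ t : ℝ, 0 ≤ t → (t : EReal) < T → Pinched P (F t) (1 / 2 * Real.exp (-(2 * n * t)))) := by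
  have := FiniteDimensional.complete ℝ P
  have := FiniteDimensional.complete ℝ Q
  have main : ∀ Z : ℝ, 0 ≤ Z → Z < 1 → Pinched P (F 0) Z →
      ∀ t : ℝ, 0 ≤ t → (t : EReal) < T → Pinched P (F t) (Z * Real.exp (-(2 * n * t))) := by
    intro Z h0 h1 hp t ht hT
    obtain ⟨S, hS, hS'⟩ := EReal.lt_iff_exists_real_btwn.1 hT
    have sub : Ico 0 S ⊆ {t : ℝ | 0 ≤ t ∧ (t : EReal) < T} := fun s hs =>
      ⟨hs.1, (EReal.coe_lt_coe_iff.2 hs.2).trans hS'⟩
    exact preserved hP hQ (by omega) ⟨h.smooth.mono (prod_mono_left sub),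
      fun s hs => h.sphere s (sub hs), fun s hs => h.immersion s (sub hs),
      fun s hs x b hb => (h.flow s (sub hs) x b hb).mono sub⟩
      h0 h1 hp ⟨ht, EReal.coe_lt_coe_iff.1 hS⟩
  refine ⟨main, fun H => main _ (by norm_num) (by norm_num) fun x u v huv => ?_⟩
  have k := H x u v huv
  have := norm_add_sq_real (sff P (F 0) x u u) (sff P (F 0) x v v)
  rw [norm_sub_sq_real] at k ⊢
  nlinarith [sq_nonneg ‖sff P (F 0) x u u + sff P (F 0) x v v‖]

end Pool.Agent.Variants.MP_de485e_gt.HyperPinch
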