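import Pool.Agent.Lib.MP_de485e_gt.Hi.Final

/-! Convergence of the mean curvature flow in the unit sphere, codimension below half the dimension. -/

open Set Filter Topology
open scoped RealInnerProductSpace Manifold ContDiff
open Pool.Agent.Lib.MP_de485e_gt

namespace Pool.Agent.Variants.MP_de485e_gt.LowCodim

theorem result (n q : ℕ) (hnq : 2 * q + 10 ^ 14 * √n ≤ (n : ℝ)) (hn : 2 ≤ n) (P Q : Type)
    [NormedAddCommGroup P] [InnerProductSpace ℝ P]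
    [FiniteDimensional ℝ P] [NormedAddCommGroup Q] [InnerProductSpace ℝ Q] [FiniteDimensional ℝ Q]
    (hP : Module.finrank ℝ P = n) (hQ : Module.finrank ℝ Q = n + q + 1)
    (M : Type) [TopologicalSpace M] [T2Space M] [CompactSpace M] [ConnectedSpace M]
    [ChartedSpace P M] [IsManifold 𝓘(ℝ, P) ∞ M] (T : EReal) (hT : 0 < T) (F : ℝ → M → Q)
    (h : IsSphereMCF P F {t | 0 ≤ t ∧ (t : EReal) < T})
    (h0 : TauLt P (F 0) (4 / 3))
    (hmax : ∀ S : ℝ, T = S → ∀ C : ℝ, ∃ᶠ t in 𝓝[<] S, ∃ x u,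
      C * ‖dF P (F t) x u‖ ^ 2 < ‖sff P (F t) x u u‖) :
    (∃ S : ℝ, T = S ∧ ∃ (p : Q) (V : Submodule ℝ Q), ‖p‖ = 1 ∧ Module.finrank ℝ V = n + 1 ∧
      (∀ w ∈ V, ⟪p, w⟫ = 0) ∧
      (∀ ε : ℝ, 0 < ε → ∀ᶠ t in 𝓝[<] S, ∀ x,
        |‖F t x - p‖ / √(2 * n * (S - t)) - 1| ≤ ε ∧
        ‖F t x - p - V.starProjection (F t x - p)‖ ≤ ε * √(2 * n * (S - t)) ∧
        (∀ u, ‖dF P (F t) x u - V.starProjection (dF P (F t) x u)‖ ≤ ε * ‖dF P (F t) x u‖) ∧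
        ∀ u v, ‖√(2 * n * (S - t)) • sff P (F t) x u v +
            (⟪dF P (F t) x u, dF P (F t) x v⟫ / √(2 * n * (S - t))) • (F t x - p)‖ ≤
          ε * ‖dF P (F t) x u‖ * ‖dF P (F t) x v‖) ∧
      ∀ᶠ t in 𝓝[<] S, SubBij V p (F t)) ∨
    (T = ⊤ ∧ ∃ V : Submodule ℝ Q, Module.finrank ℝ V = n + 1 ∧
      (∃ Φ : M → Q, TendstoUniformly F Φ atTop ∧ ∀ x, Φ x ∈ V) ∧
      (∀ ε : ℝ, 0 < ε → ∀ᶠ t in atTop, ∀ x,
        (∀ u, ‖dF P (F t) x u - V.starProjection (dF P (F t) x u)‖ ≤ ε * ‖dF P (F t) x u‖) ∧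
        ∀ u v, ‖sff P (F t) x u v‖ ≤ ε * ‖dF P (F t) x u‖ * ‖dF P (F t) x v‖) ∧
      ∀ᶠ t in atTop, SubBij V 0 (F t)) := by
  have := FiniteDimensional.complete ℝ P
  have := FiniteDimensional.complete ℝ Q
  obtain ⟨p, hq, hp⟩ := Hi.exists_par1 hn hnq
  replace hq : p.Fit (Module.finrank ℝ Q - n - 1) := hq.mono (by omega)
  rw [← hp] at h0
  induction T with
  | bot => exact absurd hT (by simp)
  | coe S =>
    have e : {t : ℝ | 0 ≤ t ∧ (t : EReal) < (S : EReal)} = Ico 0 S := by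
      ext t
      simp [EReal.coe_lt_coe_iff]
    rw [e] at h
    obtain ⟨a, ha, G, g⟩ := Hi.finite_case ⟨hn, hP⟩ (EReal.coe_pos.1 hT) h p hq h0
    exact Or.inl ⟨S, rfl, g.round_point ha (hmax S rfl)⟩
  | top =>
    have e : {t : ℝ | 0 ≤ t ∧ (t : EReal) < ⊤} = Ici 0 := by
      ext t
      simp
    rw [e] at h
    obtain ⟨a, G, g⟩ := Hi.infinite_case ⟨hn, hP⟩ h p hq h0
    exact Or.inr ⟨rfl, g.great_sphere⟩

end Pool.Agent.Variants.MP_de485e_gt.LowCodim
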